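import Pool.Agent.Y772.NI.Dual

/-!
# The real case: `n(ℓ_p) < n(ℓ_p^2)` for every `p ≠ 2`

Real scalars, `1 < p < ∞`, `p ≠ 2`.  `numRadius 𝕜 T`, `numIndex 𝕜 X` (the numerical radius of an
operator and the numerical index of a normed space over `𝕜`) are defined in
`Pool/Agent/Y772/NI/Base.lean` exactly as in the problem, `bigM p` (the number `M_p` of the problem)
in `Pool/Agent/Y772/NI/Crit.lean`.  We prove

* `n(ℓ_p) < n(ℓ_p^2)`, and `n(ℓ_p^m) < n(ℓ_p^2)` for all `m ≥ 3`;
* `n(ℓ_p^2) = M_p`.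

So the equality `n(ℓ_p) = n(ℓ_p^2)` fails for real scalars and every `p ≠ 2`.

*Plane.*  Let `u` be the point where `(t - t^{p-1}) / (1 + t^p)` is largest, `p > 2`.  The inequality
of the numerical radius at the four states `(1, ±u)`, `(u, ±1)` gives two linear inequalities for
the absolute values of the entries of a `2 × 2` matrix `T` with `v(T) ≤ M_p`; they imply that `|T|` is
dominated, entry by entry, by a convex combination of three explicit matrices of norm at most `1`.

*Dimension three.*  With `c = 2^{-1/p}` the operator `T₀` with matrix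
`(0, 0, c; 0, 0, c; -1/(2c), -1/(2c), 0)` satisfies `‖T₀‖ = 1`, `v(T₀) = M_p`: with `w = c z`
its form is `(w x* - w* x) + (w y* - w* y)`, a sum of two forms of the plane.  It attains `M_p` only at
states where `x, y ∈ {w/u, -uw}`.  The perturbation `ε (-a, -1; 1, a)` of the first two rows, with
`a = u² (1 - u^{2p-4}) / (1 - u^{2p})`, vanishes at all these states, so the numerical radius grows
at most by `C ε²` (a quadratic lower bound, with Bernoulli's inequality), while the norm grows at least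
by `c' ε^{1 + 2/p}` (test vector `(α, -α, 1)`, `ε = α^{p/2}`).  The case `p < 2` follows by
transposition.
-/

set_option autoImplicit false

open scoped ENNReal

namespace Pool.Agent.Results.MP_3da572_an.RealEveryP

open Pool.Agent.Y772.NI (numIndex bigM)

/-- **Real scalars.**  For every `1 < p < ∞`, `p ≠ 2`: `n(ℓ_p^2) = M_p`, and `n(ℓ_p)` as well as all
`n(ℓ_p^m)`, `m ≥ 3`, are strictly smaller. -/
theorem result (p : ℝ≥0∞) [Fact (1 ≤ p)] (h1 : 1 < p) (htop : p ≠ ∞) (h2 : p ≠ 2) :
    numIndex ℝ (lp (fun _ : ℕ => ℝ) p) < numIndex ℝ (lp (fun _ : Fin 2 => ℝ) p) ∧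
    (∀ m : ℕ, 3 ≤ m →
      numIndex ℝ (lp (fun _ : Fin m => ℝ) p) < numIndex ℝ (lp (fun _ : Fin 2 => ℝ) p)) ∧
    numIndex ℝ (lp (fun _ : Fin 2 => ℝ) p) = bigM p.toReal := by
  obtain ⟨a, b⟩ := Pool.Agent.Y772.NI.real_all p h1 htop h2
  rw [a]
  refine ⟨b ℕ ⟨0, 1, 2, by decide, by decide, by decide⟩, fun m hm => ?_, rfl⟩
  exact b (Fin m) ⟨⟨0, by omega⟩, ⟨1, by omega⟩, ⟨2, by omega⟩, by simp, by simp, by simp⟩

end Pool.Agent.Results.MP_3da572_an.RealEveryP
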